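import Mathlib
import Pool.Agent.H771R4.SE.AllX2

set_option autoImplicit false

/-! # Arbitrary weights on the primes in the large sieve proof of the averaged Artin theorem -/

namespace Pool.Agent.H249_WA

open Finset Filter Topology
open Pool.Agent.H386R2.Artin (PP Good hL gL card_PP ev1 ev3 ev5 tlog pi_lower sumH omegaLarge)
open Pool.Agent.H771R4.SE

/-- the data of a counting problem: a condition `Q` modulo every prime and local densities `G p` -/
structure Dt where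
  Q : (p : ℕ) → ZMod p → Prop
  G : ℕ → ℝ
  p0 : ℕ
  G0 : ∀ p, 0 ≤ G p
  G1 : ∀ p, G p ≤ 2
  loc : ∀ (p : ℕ), p.Prime → p0 ≤ p → ∀ (E : Finset ℕ) (M : ℝ) (L : ℕ), 2 ≤ L →
    (∀ q ∈ E, (q : ZMod p) ≠ 0) → 0 ≤ M → Good E M p →
    |((open Classical in #(E.filter (fun q : ℕ => Q p ((q : ℕ) : ZMod p))) : ℕ) : ℝ) -
      #E * G p| ≤
      1 + 2 ^ L * M + 3 * (#E * hL L (p - 1)) + (p - 1).primeFactors.card * M

/-- the total weight of the primes `p ≤ x` with the condition of the datum -/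
noncomputable def cntW (d : Dt) (w : ℕ → ℝ) (n x : ℕ) : ℝ := by
  classical
  exact ∑ p ∈ (PP x).filter (fun p : ℕ => d.Q p (n : ZMod p)), w p

/-- the expected weight -/
noncomputable def mainW (d : Dt) (w : ℕ → ℝ) (x : ℕ) : ℝ := ∑ p ∈ PP x, w p * d.G p

open Classical in
lemma cntW_sum (d : Dt) (w : ℕ → ℝ) (E : Finset ℕ) (x : ℕ) :
    ∑ q ∈ E, cntW d w q x =
      ∑ p ∈ PP x, w p * (#(E.filter (fun q : ℕ => d.Q p ((q : ℕ) : ZMod p))) : ℝ) := by
  have h1 : ∀ q : ℕ, cntW d w q x =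
      ∑ p ∈ PP x, if d.Q p ((q : ℕ) : ZMod p) then w p else 0 := by
    intro q
    unfold cntW
    rw [Finset.sum_filter]
  simp_rw [h1]
  rw [Finset.sum_comm]
  refine Finset.sum_congr rfl fun p _ => ?_
  rw [← Finset.sum_filter, Finset.sum_const, nsmul_eq_mul, mul_comm]

theorem avgW (d : Dt) {θ₀ δ c C : ℝ} (hθ₀ : 1 / 2 < θ₀) (hδ : 0 < δ) (hC1 : 1 < C)
    (hF : FB θ₀ δ c C) (ε : ℝ)
    (hε : 0 < ε) : ∃ N₀ : ℕ, ∀ N x : ℕ, N₀ ≤ N → (N : ℝ) ^ C ≤ x →
      Real.log x ≤ (Real.log N) ^ (1 + c) → ∀ E : Finset ℕ, E ⊆ Icc 1 N →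
        (N : ℝ) ^ θ₀ ≤ (#E : ℝ) → ∀ w : ℕ → ℝ, (∀ p, 0 ≤ w p) → (∀ p, w p ≤ 1) →
          |∑ q ∈ E, cntW d w q x - mainW d w x * #E| ≤
            ε * Nat.primeCounting x * #E := by
  classical
  obtain ⟨N₁, hfew⟩ := hF
  obtain ⟨CH, hC, h5⟩ := sumH
  obtain ⟨x₆, hx₆⟩ := omegaLarge
  obtain ⟨y₀, hy3, hy₀⟩ := pi_lower
  set ε' : ℝ := ε / 20 with hε'd
  have hε' : 0 < ε' := by positivity
  have hCL : ∀ᶠ L : ℕ in atTop, CH / (L : ℝ) < ε' := by
    have : Tendsto (fun L : ℕ => CH / (L : ℝ)) atTop (𝓝 0) :=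
      tendsto_const_nhds.div_atTop tendsto_natCast_atTop_atTop
    exact this.eventually (gt_mem_nhds hε')
  obtain ⟨L, hL2, hL3⟩ := (hCL.and (eventually_ge_atTop 2)).exists
  obtain ⟨x₅, hx₅⟩ := h5 L (by omega)
  have hNb : ∀ᶠ N : ℕ in atTop, max (1 / ε') (d.p0 : ℝ) ≤ (N : ℝ) ^ (1 / 2 : ℝ) :=
    ((tendsto_rpow_atTop (by norm_num)).comp tendsto_natCast_atTop_atTop).eventually_ge_atTop _
  have hC0 : 0 < C := by linarith
  have hC1' : 0 < 1 - 1 / C := by
    rw [sub_pos, div_lt_one hC0]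
    exact hC1
  have hev := ((((((evB 12 0 δ ε' hδ hε' (by norm_num)).and
    (ev1 (1 - 1 / C) ε' hC1' hε')).and (ev3 ε' hε')).and (ev5 ε' 1 (2 ^ L) hε' (by norm_num))).and
    (eventually_ge_atTop 0)).and (tlog.eventually_ge_atTop (max 3 (y₀ : ℝ)))).and
    (((eventually_ge_atTop x₅).and (eventually_ge_atTop x₆)).and (eventually_ge_atTop y₀))
  obtain ⟨x₀, hx₀⟩ := eventually_atTop.1 hev
  obtain ⟨N₂, hN₂⟩ := eventually_atTop.1 hNb
  refine ⟨max (max N₁ N₂) (max x₀ 2), fun N x hN' hNx hxN E hE hEc w hw0 hw1 => ?_⟩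
  have hN : 2 ≤ N := (le_max_right _ _).trans ((le_max_right _ _).trans hN')
  have hNN1 : N₁ ≤ N := (le_max_left _ _).trans ((le_max_left _ _).trans hN')
  have hNN2 : N₂ ≤ N := (le_max_right _ _).trans ((le_max_left _ _).trans hN')
  have hN0 : (0 : ℝ) < N := by exact_mod_cast (by omega : 0 < N)
  have hN1 : (1 : ℝ) ≤ N := by exact_mod_cast (by omega : 1 ≤ N)
  have hNlex : N ≤ x := by
    have h1 : (N : ℝ) ^ (1 : ℝ) ≤ (N : ℝ) ^ C := Real.rpow_le_rpow_of_exponent_le hN1 hC1.le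
    rw [Real.rpow_one] at h1
    exact_mod_cast h1.trans hNx
  have hxx : x₀ ≤ x := ((le_max_left _ _).trans ((le_max_right _ _).trans hN')).trans hNlex
  have e4 := hN₂ N hNN2
  obtain ⟨⟨⟨⟨⟨⟨e1, e2⟩, e3⟩, e5⟩, eG⟩, hX⟩, ⟨⟨hxx5, hxx6⟩, hxxy⟩⟩ := hx₀ x hxx
  have hP := hy₀ x hxxy
  set P : ℝ := (Nat.primeCounting x : ℝ) with hPd
  set X : ℝ := Real.log x with hXd
  have hX3 : 3 ≤ X := le_trans (le_max_left _ _) hX
  have hX0 : 0 < X := by linarith
  have hX1 : 1 ≤ X := by linarith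
  have hx3 : 3 ≤ x := le_trans hy3 hxxy
  have hx0 : (0 : ℝ) < x := by exact_mod_cast (by omega : 0 < x)
  have hx1 : (1 : ℝ) ≤ x := by exact_mod_cast (by omega : 1 ≤ x)
  have hP0 : 0 < P := lt_of_lt_of_le (by positivity) hP
  set e : ℝ := (#E : ℝ) with hed
  have he0 : 0 < e := lt_of_lt_of_le (by positivity) hEc
  have hNup : (N : ℝ) ≤ (x : ℝ) ^ (1 - (1 - 1 / C) : ℝ) := by
    have h1 : ((N : ℝ) ^ C) ^ (1 / C) ≤ (x : ℝ) ^ (1 / C) :=
      Real.rpow_le_rpow (by positivity) hNx (by positivity)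
    rw [← Real.rpow_mul hN0.le, mul_one_div_cancel hC0.ne', Real.rpow_one] at h1
    refine h1.trans (le_of_eq ?_)
    congr 1
    ring
  have hNp0 : d.p0 ≤ N := by
    have h1 : (d.p0 : ℝ) ≤ (N : ℝ) ^ (1 / 2 : ℝ) := (le_max_right _ _).trans e4
    have h2 : (N : ℝ) ^ (1 / 2 : ℝ) ≤ (N : ℝ) ^ (1 : ℝ) :=
      Real.rpow_le_rpow_of_exponent_le hN1 (by norm_num)
    rw [Real.rpow_one] at h2
    exact_mod_cast h1.trans h2
  have hone : 1 ≤ ε' * e := by
    have h1 : (N : ℝ) ^ (1 / 2 : ℝ) ≤ (N : ℝ) ^ θ₀ :=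
      Real.rpow_le_rpow_of_exponent_le hN1 (by linarith)
    have h2 : 1 / ε' ≤ e := (le_max_left _ _).trans (e4.trans (h1.trans hEc))
    rw [div_le_iff₀ hε'] at h2
    linarith
  set M : ℝ := e / X with hMd
  have hM0 : 0 < M := by positivity
  set W : ℝ := 5 * Real.log X with hWd
  have hW0 : 0 ≤ W := by
    have := Real.log_nonneg hX1
    positivity
  set F : ℕ → ℝ := fun p => (#(E.filter (fun q : ℕ => d.Q p ((q : ℕ) : ZMod p))) : ℝ) with hFd
  have hF0 : ∀ p, 0 ≤ F p := fun p => Nat.cast_nonneg _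
  have hFe : ∀ p, F p ≤ e := fun p => by
    simp only [hFd, hed]
    exact_mod_cast card_filter_le _ _
  set Z1 : Finset ℕ := (PP x).filter (fun p => ¬ Good E M p) with hZ1
  set Z2 : Finset ℕ := (PP x).filter (fun p : ℕ => p ≤ N) with hZ2
  set Z3 : Finset ℕ := (PP x).filter (fun p => W < ((p - 1).primeFactors.card : ℝ)) with hZ3
  have hZ1c : (#Z1 : ℝ) ≤ ε' * P := by
    have h1 := hfew N x hNN1 hNx hxN E hE hEc Z1 (fun p hp => by
      rw [hZ1, mem_filter] at hp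
      exact hp)
    rw [pow_zero, mul_one] at e1
    refine h1.trans (e1.trans ?_)
    gcongr
  have hZ2c : (#Z2 : ℝ) ≤ ε' * P := by
    have h1 : Z2 ⊆ Icc 1 N := by
      intro p hp
      rw [hZ2, mem_filter, PP, mem_filter] at hp
      rw [mem_Icc]
      exact ⟨hp.1.2.one_le, hp.2⟩
    have h2 : (#Z2 : ℝ) ≤ N := by
      have := card_le_card h1
      rw [Nat.card_Icc, Nat.add_sub_cancel] at this
      exact_mod_cast this
    refine h2.trans (hNup.trans (e2.trans ?_))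
    gcongr
  have hZ3c : (#Z3 : ℝ) ≤ ε' * P := by
    refine le_trans (hx₆ x hxx6) (le_trans e3 ?_)
    gcongr
  have hpt : ∀ p ∈ PP x, |F p - e * d.G p| ≤
      (if p ∈ Z1 then 2 * e else 0) + (if p ∈ Z2 then 2 * e else 0) +
        (if p ∈ Z3 then 2 * e else 0) +
        3 * (1 + 2 ^ L * M + W * M + e * hL L (p - 1)) := by
    intro p hp
    have hg0 := d.G0 p
    have hg1 := d.G1 p
    have hh0 : 0 ≤ hL L (p - 1) := Finset.sum_nonneg fun l _ => by positivity
    have hrest : 0 ≤ 3 * (1 + 2 ^ L * M + W * M + e * hL L (p - 1)) := by positivity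
    have htriv : |F p - e * d.G p| ≤ 2 * e := by
      have f0 := hF0 p
      have fe := hFe p
      have g1 : 0 ≤ e * d.G p := mul_nonneg he0.le hg0
      have g2 : e * d.G p ≤ e * 2 := mul_le_mul_of_nonneg_left hg1 he0.le
      rw [abs_le]
      constructor
      · linarith
      · linarith
    have i1 : 0 ≤ (if p ∈ Z1 then 2 * e else 0) := by split_ifs <;> linarith
    have i2 : 0 ≤ (if p ∈ Z2 then 2 * e else 0) := by split_ifs <;> linarith
    have i3 : 0 ≤ (if p ∈ Z3 then 2 * e else 0) := by split_ifs <;> linarith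
    by_cases c1 : p ∈ Z1
    · rw [if_pos c1]; linarith
    by_cases c2 : p ∈ Z2
    · rw [if_pos c2]; linarith
    by_cases c3 : p ∈ Z3
    · rw [if_pos c3]; linarith
    have hgood : Good E M p := by
      by_contra hcon; exact c1 (mem_filter.2 ⟨hp, hcon⟩)
    have hpN : N < p := by
      by_contra hcon; exact c2 (mem_filter.2 ⟨hp, not_lt.1 hcon⟩)
    have hom : ((p - 1).primeFactors.card : ℝ) ≤ W := by
      by_contra hcon; exact c3 (mem_filter.2 ⟨hp, not_le.1 hcon⟩)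
    have hpp : p.Prime := (mem_filter.1 hp).2
    have hE0 : ∀ q ∈ E, ((q : ℕ) : ZMod p) ≠ 0 := by
      intro q hq h
      rw [ZMod.natCast_eq_zero_iff] at h
      have h1 := mem_Icc.1 (hE hq)
      have := Nat.le_of_dvd (by omega) h
      omega
    have := d.loc p hpp (by omega) E M L hL3 hE0 hM0.le hgood
    refine le_trans (le_trans (le_of_eq ?_) this) ?_
    · simp only [hFd, hed]
    have h8 : ((p - 1).primeFactors.card : ℝ) * M ≤ W * M := by gcongr
    have h9 : 0 ≤ 2 ^ L * M := by positivity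
    have h10 : 0 ≤ W * M := by positivity
    have h11 : 0 ≤ e * hL L (p - 1) := by positivity
    linarith
  have hsum : |∑ p ∈ PP x, w p * F p - e * ∑ p ∈ PP x, w p * d.G p| ≤
      3 * (2 * (ε' * P * e)) + 3 * (P * (1 + 2 ^ L * M + W * M)) + 3 * (e * (CH / L * P)) := by
    have hs1 : ∑ p ∈ PP x, w p * F p - e * ∑ p ∈ PP x, w p * d.G p =
        ∑ p ∈ PP x, w p * (F p - e * d.G p) := by
      rw [Finset.mul_sum, ← Finset.sum_sub_distrib]
      exact Finset.sum_congr rfl fun p _ => by ring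
    rw [hs1]
    refine le_trans (Finset.abs_sum_le_sum_abs _ _) (le_trans (Finset.sum_le_sum fun p hp => ?_)
      (le_trans (Finset.sum_le_sum hpt) ?_))
    · rw [abs_mul, abs_of_nonneg (hw0 p)]
      exact mul_le_of_le_one_left (abs_nonneg _) (hw1 p)
    rw [Finset.sum_add_distrib, Finset.sum_add_distrib, Finset.sum_add_distrib, ← Finset.mul_sum,
      Finset.sum_add_distrib]
    have hsub : ∀ Z : Finset ℕ, Z ⊆ PP x →
        ∑ p ∈ PP x, (if p ∈ Z then 2 * e else 0) = #Z * (2 * e) := by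
      intro Z hZ
      rw [← Finset.sum_filter, Finset.sum_const, nsmul_eq_mul, Finset.filter_mem_eq_inter,
        Finset.inter_eq_right.2 hZ]
    rw [hsub Z1 (filter_subset _ _), hsub Z2 (filter_subset _ _), hsub Z3 (filter_subset _ _),
      Finset.sum_const, nsmul_eq_mul, card_PP, ← hPd, ← Finset.mul_sum]
    have hh := hx₅ x hxx5
    have g1 : (#Z1 : ℝ) * (2 * e) ≤ ε' * P * (2 * e) := by gcongr
    have g2 : (#Z2 : ℝ) * (2 * e) ≤ ε' * P * (2 * e) := by gcongr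
    have g3 : (#Z3 : ℝ) * (2 * e) ≤ ε' * P * (2 * e) := by gcongr
    have g4 : e * ∑ p ∈ PP x, hL L (p - 1) ≤ e * (CH / L * P) := by gcongr
    linarith
  rw [cntW_sum d w E x]
  change |∑ p ∈ PP x, w p * F p - mainW d w x * e| ≤ ε * P * e
  have hMs : P * (1 + 2 ^ L * M + W * M) ≤ 2 * (ε' * P * e) := by
    have k1 : 2 ^ L * M + W * M = e * ((2 ^ L + W) / X) := by
      rw [hMd]; ring
    rw [Real.rpow_one] at e5
    have k2 : e * ((2 ^ L + W) / X) ≤ e * ε' := by gcongr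
    have k3 : 1 + 2 ^ L * M + W * M ≤ 2 * (ε' * e) := by linarith
    calc P * (1 + 2 ^ L * M + W * M) ≤ P * (2 * (ε' * e)) := by gcongr
      _ = 2 * (ε' * P * e) := by ring
  have hCLP : e * (CH / L * P) ≤ ε' * P * e := by
    have : CH / (L : ℝ) * P ≤ ε' * P := by gcongr
    nlinarith
  have hfin : 16 * (ε' * P * e) ≤ ε * P * e := by
    have k1 : ε = 20 * ε' := by linarith [hε'd]
    have k2 : 0 ≤ ε' * P * e := mul_nonneg (mul_nonneg hε'.le hP0.le) he0.le
    have k3 : ε * P * e = 20 * (ε' * P * e) := by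
      calc ε * P * e = (20 * ε') * P * e := by rw [← k1]
        _ = 20 * (ε' * P * e) := by ring
    linarith
  have hmm : mainW d w x * e = e * ∑ p ∈ PP x, w p * d.G p := by
    unfold mainW
    ring
  rw [hmm]
  have hk2 : 0 ≤ ε' * P * e := mul_nonneg (mul_nonneg hε'.le hP0.le) he0.le
  linarith

open Classical in
/-- the exceptional set -/
theorem excW (d : Dt) {θ₀ δ c C : ℝ} (hθ₀ : 1 / 2 < θ₀) (hδ : 0 < δ) (hC1 : 1 < C)
    (hF : FB θ₀ δ c C) (ε : ℝ) (hε : 0 < ε) : ∃ N₀ : ℕ, ∀ N x : ℕ, N₀ ≤ N → (N : ℝ) ^ C ≤ x →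
      Real.log x ≤ (Real.log N) ^ (1 + c) →
      ∀ w : ℕ → ℝ, (∀ p, 0 ≤ w p) → (∀ p, w p ≤ 1) →
      (#((Icc 1 N).filter (fun n : ℕ => ε * (Nat.primeCounting x : ℝ) <
        |cntW d w n x - mainW d w x|)) : ℝ) ≤
        2 * (N : ℝ) ^ θ₀ := by
  obtain ⟨N₁, hx₁⟩ := avgW d hθ₀ hδ hC1 hF (ε / 2) (by positivity)
  refine ⟨max N₁ 2, fun N x hN hNx hxN w hw0 hw1 => ?_⟩
  have hNN1 : N₁ ≤ N := (le_max_left _ _).trans hN
  have hN2 : 2 ≤ N := (le_max_right _ _).trans hN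
  have hN0 : (0 : ℝ) < N := by exact_mod_cast (by omega : 0 < N)
  have hN1 : (1 : ℝ) ≤ N := by exact_mod_cast (by omega : 1 ≤ N)
  have hx2 : 2 ≤ x := by
    have h1 : (N : ℝ) ^ (1 : ℝ) ≤ (N : ℝ) ^ C := Real.rpow_le_rpow_of_exponent_le hN1 hC1.le
    rw [Real.rpow_one] at h1
    have : N ≤ x := by exact_mod_cast h1.trans hNx
    omega
  set P : ℝ := (Nat.primeCounting x : ℝ) with hPd
  have hP0 : 0 < P := by
    have h1 : Nat.primeCounting 2 ≤ Nat.primeCounting x := Nat.monotone_primeCounting hx2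
    have h2 : Nat.primeCounting 2 = 1 := by decide
    have : 0 < Nat.primeCounting x := by omega
    rw [hPd]
    exact_mod_cast this
  have side : ∀ s : ℝ, (s = 1 ∨ s = -1) →
      (#((Icc 1 N).filter (fun n : ℕ => ε * P < s * (cntW d w n x - mainW d w x))) : ℝ) ≤
        (N : ℝ) ^ θ₀ := by
    intro s hs
    by_contra hcon
    push Not at hcon
    set E := (Icc 1 N).filter (fun n : ℕ => ε * P < s * (cntW d w n x - mainW d w x)) with hEd
    have hav := hx₁ N x hNN1 hNx hxN E (filter_subset _ _) hcon.le w hw0 hw1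
    have he0 : (0 : ℝ) < #E := lt_trans (by positivity) hcon
    have hlow : ε * P * #E ≤ s * (∑ q ∈ E, cntW d w q x - mainW d w x * #E) := by
      have h1 : s * (∑ q ∈ E, cntW d w q x - mainW d w x * #E) =
          ∑ q ∈ E, (s * (cntW d w q x - mainW d w x)) := by
        rw [← Finset.mul_sum, Finset.sum_sub_distrib, Finset.sum_const, nsmul_eq_mul]
        ring
      rw [h1]
      have h3 : ∑ _q ∈ E, ε * P ≤ ∑ q ∈ E, (s * (cntW d w q x - mainW d w x)) := by
        apply Finset.sum_le_sum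
        intro q hq
        rw [hEd, mem_filter] at hq
        exact hq.2.le
      rw [Finset.sum_const, nsmul_eq_mul] at h3
      linarith
    have hup : s * (∑ q ∈ E, cntW d w q x - mainW d w x * #E) ≤ ε / 2 * P * #E := by
      rcases hs with hs | hs
      · rw [hs, one_mul]; exact le_trans (le_abs_self _) hav
      · rw [hs]
        have := neg_abs_le (∑ q ∈ E, cntW d w q x - mainW d w x * #E)
        linarith
    have hpos : 0 < ε * P * #E := by positivity
    have : ε / 2 * P * #E = (ε * P * #E) / 2 := by ring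
    linarith
  have h1 := side 1 (Or.inl rfl)
  have h2 := side (-1) (Or.inr rfl)
  have hsub : (Icc 1 N).filter (fun n : ℕ => ε * P < |cntW d w n x - mainW d w x|) ⊆
      (Icc 1 N).filter (fun n : ℕ => ε * P < 1 * (cntW d w n x - mainW d w x)) ∪
      (Icc 1 N).filter (fun n : ℕ => ε * P < (-1) * (cntW d w n x - mainW d w x)) := by
    intro q hq
    rw [mem_filter] at hq
    rw [mem_union, mem_filter, mem_filter]
    rcases lt_abs.1 hq.2 with h3 | h3
    · left; exact ⟨hq.1, by linarith⟩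
    · right; exact ⟨hq.1, by linarith⟩
  have h3 := (card_le_card hsub).trans (card_union_le _ _)
  have h4 : (#((Icc 1 N).filter (fun n : ℕ => ε * P < |cntW d w n x - mainW d w x|)) : ℝ) ≤
      (#((Icc 1 N).filter (fun n : ℕ => ε * P < 1 * (cntW d w n x - mainW d w x))) : ℝ) +
      (#((Icc 1 N).filter (fun n : ℕ => ε * P < (-1) * (cntW d w n x - mainW d w x))) : ℝ) := by
    exact_mod_cast h3
  linarith



end Pool.Agent.H249_WA
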