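import Mathlib
import Pool.Agent.H249_WA.Weighted

set_option autoImplicit false

/-! # All `x` of the range at the same time, and several integers at the same time -/

namespace Pool.Agent.H249_WA

open Finset Filter Topology
open Pool.Agent.H386R2.Artin (PP card_PP)
open Pool.Agent.H771R4.SE
open Pool.Agent.H730R2.AA.Grid (g g_ge g_one_le g_step g_mono pi_ratio)

lemma PP_mono {x y : ℕ} (h : x ≤ y) : PP x ⊆ PP y := by
  intro p hp
  unfold PP at hp ⊢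
  rw [mem_filter, mem_range] at hp ⊢
  exact ⟨by omega, hp.2⟩

lemma cntW_mono (d : Dt) (w : ℕ → ℝ) (hw : ∀ p, 0 ≤ w p) (n : ℕ) {x y : ℕ} (h : x ≤ y) :
    cntW d w n x ≤ cntW d w n y := by
  classical
  unfold cntW
  exact Finset.sum_le_sum_of_subset_of_nonneg (filter_subset_filter _ (PP_mono h))
    fun p _ _ => hw p

lemma mainW_mono (d : Dt) (w : ℕ → ℝ) (hw : ∀ p, 0 ≤ w p) {x y : ℕ} (h : x ≤ y) :
    mainW d w x ≤ mainW d w y := by
  unfold mainW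
  exact Finset.sum_le_sum_of_subset_of_nonneg (PP_mono h)
    fun p _ _ => mul_nonneg (hw p) (d.G0 p)

lemma mainW_step (d : Dt) (w : ℕ → ℝ) (hw : ∀ p, 0 ≤ w p) (hw1 : ∀ p, w p ≤ 1) {x y : ℕ}
    (h : x ≤ y) :
    mainW d w y - mainW d w x ≤ 2 * ((Nat.primeCounting y : ℝ) - Nat.primeCounting x) := by
  classical
  unfold mainW
  have h1 : ∑ p ∈ PP y \ PP x, w p * d.G p + ∑ p ∈ PP x, w p * d.G p =
      ∑ p ∈ PP y, w p * d.G p := Finset.sum_sdiff (PP_mono h)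
  have h2 : ∑ p ∈ PP y \ PP x, w p * d.G p ≤ ∑ _p ∈ PP y \ PP x, (2 : ℝ) := by
    refine Finset.sum_le_sum fun p _ => ?_
    calc w p * d.G p ≤ 1 * 2 := mul_le_mul (hw1 p) (d.G1 p) (d.G0 p) zero_le_one
      _ = 2 := by norm_num
  have h3 : (#(PP y \ PP x) : ℝ) = (Nat.primeCounting y : ℝ) - Nat.primeCounting x := by
    rw [← card_PP, ← card_PP, Finset.cast_card_sdiff (PP_mono h)]
  rw [Finset.sum_const, nsmul_eq_mul, h3] at h2
  linarith

lemma interpW {e P0 P P1 A0 A A1 T0 T T1 : ℝ} (he0 : 0 < e) (he1 : e ≤ 1) (hP0 : 0 ≤ P0)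
    (h01 : P0 ≤ P) (hP : P1 ≤ (1 + e) * P0) (hA0 : A0 ≤ A) (hA1 : A ≤ A1)
    (hT0 : T0 ≤ T) (hT1 : T ≤ T1) (hT : T1 - T0 ≤ 2 * (P1 - P0))
    (h0 : |A0 - T0| ≤ e * P0) (h1 : |A1 - T1| ≤ e * P1) :
    |A - T| ≤ 4 * e * P := by
  rw [abs_le] at h0 h1 ⊢
  have h2 : e * P1 ≤ e * (2 * P0) := by
    refine mul_le_mul_of_nonneg_left (hP.trans ?_) he0.le
    nlinarith
  have h3 : e * P0 ≤ e * P := mul_le_mul_of_nonneg_left h01 he0.le
  have h4 : P1 - P0 ≤ e * P0 := by linarith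
  constructor <;> nlinarith

open Classical in
/-- the integers that are exceptional for some `x` of the range -/
noncomputable def badW (d : Dt) (w : ℕ → ℝ) (ε C c : ℝ) (N : ℕ) : Finset ℕ :=
  (Icc 1 N).filter (fun n : ℕ => ∃ x : ℕ, (N : ℝ) ^ C ≤ x ∧
    (x : ℝ) ≤ Real.exp ((Real.log N) ^ (1 + c)) ∧
    ε * (Nat.primeCounting x : ℝ) < |cntW d w n x - mainW d w x|)

theorem allW (θ C : ℝ) (hθ : 1 / 2 < θ) (hθ1 : θ < 1) (hC : 1 < C)
    (hCθ : θ * (1 - θ) < C * (2 * θ - 1)) : ∃ c : ℝ, 0 < c ∧ ∀ (d : Dt) (ε : ℝ), 0 < ε →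
    ∃ N₀ : ℕ, ∀ N : ℕ, N₀ ≤ N → ∀ w : ℕ → ℝ, (∀ p, 0 ≤ w p) → (∀ p, w p ≤ 1) →
      (#(badW d w ε C c N) : ℝ) ≤ (N : ℝ) ^ θ := by
  classical
  have h2θ : 0 < 2 * θ - 1 := by linarith
  -- a smaller C
  obtain ⟨C0, hC01, hC0C, hC0θ⟩ : ∃ C0 : ℝ, 1 < C0 ∧ C0 < C ∧ θ * (1 - θ) < C0 * (2 * θ - 1) := by
    have h1 : θ * (1 - θ) / (2 * θ - 1) < C := by
      rw [div_lt_iff₀ h2θ]
      exact hCθ
    obtain ⟨C0, h2, h3⟩ := exists_between (max_lt hC h1)
    refine ⟨C0, lt_of_le_of_lt (le_max_left _ _) h2, h3, ?_⟩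
    have h4 := lt_of_le_of_lt (le_max_right _ _) h2
    rwa [div_lt_iff₀ h2θ] at h4
  obtain ⟨θ₀, δ, c, hθ₀, hθ₀θ, hδ, hc, hF⟩ := fewBad2 θ C0 hθ hθ1 hC01 hC0θ
  refine ⟨c / 2, by positivity, fun d ε hε => ?_⟩
  set e : ℝ := min 1 (ε / 4) with hedef
  have he : 0 < e := lt_min one_pos (by positivity)
  have he1 : e ≤ 1 := min_le_left _ _
  have hee : 4 * e ≤ ε := by
    have : e ≤ ε / 4 := min_le_right _ _
    linarith
  obtain ⟨N₁, hexc⟩ := excW d hθ₀ hδ hC01 hF e he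
  obtain ⟨ρ, hρ, hρ2, X, hX2, hpi⟩ := pi_ratio e he
  have hρρ : 0 < ρ ^ 2 - ρ := by nlinarith
  have hlρ : 0 < Real.log ρ := Real.log_pos hρ
  have hρ4 : ρ ^ 2 ≤ 4 := by nlinarith
  -- the number of grid points
  have hJev : ∀ᶠ N : ℕ in atTop, 2 * ((Real.log N) ^ (1 + c) / Real.log ρ + 1) ≤
      (N : ℝ) ^ (θ - θ₀) := by
    have hs : 0 < θ - θ₀ := by linarith
    have h1 := (isLittleO_log_rpow_rpow_atTop (1 + c) hs).def
      (show (0 : ℝ) < Real.log ρ / 4 by positivity)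
    have h2 := (tendsto_natCast_atTop_atTop (R := ℝ)).eventually h1
    have h3 : ∀ᶠ N : ℕ in atTop, (4 : ℝ) ≤ (N : ℝ) ^ (θ - θ₀) :=
      ((tendsto_rpow_atTop hs).comp tendsto_natCast_atTop_atTop).eventually_ge_atTop _
    filter_upwards [h2, h3, eventually_ge_atTop 2] with N h2 h3 h4
    have hN : (2 : ℝ) ≤ N := by exact_mod_cast h4
    have hl : 0 < Real.log N := Real.log_pos (by linarith)
    rw [Real.norm_eq_abs, abs_of_pos (by positivity), Real.norm_eq_abs,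
      abs_of_pos (by positivity)] at h2
    have h5 : (Real.log N) ^ (1 + c) / Real.log ρ ≤ (N : ℝ) ^ (θ - θ₀) / 4 := by
      rw [div_le_iff₀ hlρ]
      calc (Real.log N) ^ (1 + c) ≤ Real.log ρ / 4 * (N : ℝ) ^ (θ - θ₀) := h2
        _ = (N : ℝ) ^ (θ - θ₀) / 4 * Real.log ρ := by ring
    linarith
  have hbig : ∀ᶠ N : ℕ in atTop, ((X : ℝ) + 1 / (ρ ^ 2 - ρ)) + 4 ≤ (N : ℝ) :=
    (tendsto_natCast_atTop_atTop (R := ℝ)).eventually_ge_atTop _
  have hslack : ∀ᶠ N : ℕ in atTop, (4 : ℝ) ≤ (N : ℝ) ^ (C - C0) :=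
    ((tendsto_rpow_atTop (by linarith)).comp tendsto_natCast_atTop_atTop).eventually_ge_atTop _
  have hup : ∀ᶠ N : ℕ in atTop, (Real.log N) ^ (1 + c / 2) + Real.log 4 ≤
      (Real.log N) ^ (1 + c) := by
    have hlog : Tendsto (fun N : ℕ => Real.log (N : ℝ)) atTop atTop :=
      Real.tendsto_log_atTop.comp tendsto_natCast_atTop_atTop
    have h1 : ∀ᶠ l : ℝ in atTop, l ^ (1 + c / 2) + Real.log 4 ≤ l ^ (1 + c) := by
      have h2 := (tendsto_rpow_atTop (show 0 < c / 2 by positivity)).eventually_ge_atTop 2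
      have h3 := (tendsto_rpow_atTop (show 0 < 1 + c / 2 by positivity)).eventually_ge_atTop
        (Real.log 4)
      filter_upwards [h2, h3, eventually_gt_atTop 0] with l h2 h3 h4
      have h5 : l ^ (1 + c) = l ^ (1 + c / 2) * l ^ (c / 2) := by
        rw [← Real.rpow_add h4]; congr 1; ring
      have h6 : 0 < l ^ (1 + c / 2) := by positivity
      rw [h5]
      nlinarith
    exact hlog.eventually h1
  obtain ⟨N₀, hN₀⟩ := eventually_atTop.1 (((hJev.and hbig).and (hslack.and hup)).and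
    (eventually_ge_atTop N₁))
  refine ⟨N₀, fun N hN w hw0 hw1 => ?_⟩
  obtain ⟨⟨⟨hJ, hB⟩, ⟨hsl, hup⟩⟩, hNN1⟩ := hN₀ N hN
  have hq : 0 < 1 / (ρ ^ 2 - ρ) := by positivity
  have hXnn : (0 : ℝ) ≤ X := Nat.cast_nonneg _
  have hN4 : (4 : ℝ) ≤ N := by linarith
  have hN0 : (0 : ℝ) < N := by linarith
  have hN1 : (1 : ℝ) ≤ N := by linarith
  have hl0 : 0 < Real.log N := Real.log_pos (by linarith)
  have hNC0 : (N : ℝ) ≤ (N : ℝ) ^ C0 := by
    calc (N : ℝ) = (N : ℝ) ^ (1 : ℝ) := (Real.rpow_one _).symm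
      _ ≤ _ := Real.rpow_le_rpow_of_exponent_le hN1 hC01.le
  set Y : ℝ := (Real.log N) ^ (1 + c) with hY
  have hY0 : 0 < Y := by positivity
  set J : ℕ := ⌊Y / Real.log ρ⌋₊ + 1 with hJdef
  have hJr : 2 * (J : ℝ) ≤ (N : ℝ) ^ (θ - θ₀) := by
    refine le_trans ?_ hJ
    rw [hJdef]
    push_cast
    have : (⌊Y / Real.log ρ⌋₊ : ℝ) ≤ Y / Real.log ρ := Nat.floor_le (by positivity)
    linarith
  -- the exceptional set at one grid point
  set Bd : ℕ → Finset ℕ := fun j => if (N : ℝ) ^ C0 ≤ (g ρ j : ℝ) ∧ Real.log (g ρ j) ≤ Y then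
    (Icc 1 N).filter (fun n : ℕ => e * (Nat.primeCounting (g ρ j) : ℝ) <
        |cntW d w n (g ρ j) - mainW d w (g ρ j)|) else ∅ with hBd
  have hBdc : ∀ j, (#(Bd j) : ℝ) ≤ 2 * (N : ℝ) ^ θ₀ := by
    intro j
    simp only [hBd]
    split_ifs with h
    · exact hexc N (g ρ j) hNN1 h.1 h.2 w hw0 hw1
    · rw [card_empty, Nat.cast_zero]
      positivity
  have hincl : badW d w ε C (c / 2) N ⊆ (range J).biUnion Bd := by
    intro n hn
    unfold badW at hn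
    rw [mem_filter] at hn
    obtain ⟨hn, x, hxN, hxN', hx⟩ := hn
    have hNC : (N : ℝ) ^ C0 * 4 ≤ x := by
      refine le_trans ?_ hxN
      have : (N : ℝ) ^ C = (N : ℝ) ^ C0 * (N : ℝ) ^ (C - C0) := by
        rw [← Real.rpow_add hN0]; congr 1; ring
      rw [this]
      gcongr
    have hx1 : (1 : ℝ) ≤ x := by
      have : (1 : ℝ) ≤ (N : ℝ) ^ C0 := hN1.trans hNC0
      linarith
    have hx0 : (0 : ℝ) < x := by linarith
    obtain ⟨j, hj1, hj2⟩ := exists_nat_pow_near hx1 hρ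
    have hgx : g ρ j ≤ x := Nat.ceil_le.2 hj1
    have hxg : x ≤ g ρ (j + 1) := by
      have : (x : ℝ) ≤ g ρ (j + 1) := hj2.le.trans (g_ge _)
      exact_mod_cast this
    have hgx' : (g ρ j : ℝ) ≤ x := by exact_mod_cast hgx
    have hxg' : (x : ℝ) ≤ g ρ (j + 1) := by exact_mod_cast hxg
    have hgj1 : (x : ℝ) ≤ ρ * g ρ j := by
      calc (x : ℝ) ≤ ρ ^ (j + 1) := hj2.le
        _ = ρ * ρ ^ j := by rw [pow_succ, mul_comm]
        _ ≤ ρ * g ρ j := by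
          have := g_ge (ρ := ρ) j
          gcongr
    have hgjlow : (N : ℝ) ^ C0 ≤ g ρ j := by
      have h0 : (0 : ℝ) ≤ g ρ j := Nat.cast_nonneg _
      have : (x : ℝ) ≤ 4 * g ρ j := hgj1.trans (by nlinarith)
      linarith
    have hgN : (N : ℝ) ≤ g ρ j := hNC0.trans hgjlow
    have hstep : (g ρ (j + 1) : ℝ) ≤ ρ ^ 2 * g ρ j := by
      refine g_step ?_ hρ
      have h1 : 1 / (ρ ^ 2 - ρ) ≤ g ρ j := by linarith
      rw [div_le_iff₀ hρρ] at h1
      linarith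
    have hg0 : (0 : ℝ) < g ρ j := by linarith
    have hg10 : (0 : ℝ) < g ρ (j + 1) := by linarith
    have hlogx : Real.log x ≤ (Real.log N) ^ (1 + c / 2) := by
      rw [Real.log_le_iff_le_exp hx0]
      exact hxN'
    have hgj1up : Real.log (g ρ (j + 1)) ≤ Y := by
      have h1 : (g ρ (j + 1) : ℝ) ≤ 4 * x :=
        hstep.trans (mul_le_mul hρ4 hgx' hg0.le (by norm_num))
      have h2 := Real.log_le_log hg10 h1
      rw [Real.log_mul (by norm_num) hx0.ne'] at h2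
      linarith
    have hgjup : Real.log (g ρ j) ≤ Y :=
      (Real.log_le_log hg0 (hgx'.trans hxg')).trans hgj1up
    have hgj1low : (N : ℝ) ^ C0 ≤ g ρ (j + 1) := hgjlow.trans (hgx'.trans hxg')
    have hidx : ∀ i : ℕ, Real.log (g ρ i) ≤ Y → i < J := by
      intro i hi
      have h2 : Real.log (ρ ^ i) ≤ Real.log (g ρ i) := Real.log_le_log (by positivity) (g_ge i)
      rw [Real.log_pow] at h2
      have h3 : (i : ℝ) ≤ Y / Real.log ρ := by
        rw [le_div_iff₀ hlρ]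
        exact h2.trans hi
      have h4 : i ≤ ⌊Y / Real.log ρ⌋₊ := Nat.le_floor h3
      omega
    rw [mem_biUnion]
    by_contra hcon
    push Not at hcon
    have hn0 := hcon j (mem_range.2 (hidx j hgjup))
    have hn1 := hcon (j + 1) (mem_range.2 (hidx (j + 1) hgj1up))
    simp only [hBd] at hn0 hn1
    rw [if_pos ⟨hgjlow, hgjup⟩, mem_filter, not_and, not_lt] at hn0
    rw [if_pos ⟨hgj1low, hgj1up⟩, mem_filter, not_and, not_lt] at hn1
    have ha0 := hn0 hn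
    have ha1 := hn1 hn
    have hXg : X ≤ g ρ j := by
      have : (X : ℝ) ≤ g ρ j := le_trans (by linarith) hgN
      exact_mod_cast this
    have hpij : (Nat.primeCounting (g ρ (j + 1)) : ℝ) ≤ (1 + e) * Nat.primeCounting (g ρ j) :=
      hpi _ _ hXg (hgx.trans hxg) hstep
    have hfin := interpW (e := e) (P0 := (Nat.primeCounting (g ρ j) : ℝ))
      (P := (Nat.primeCounting x : ℝ)) (P1 := (Nat.primeCounting (g ρ (j + 1)) : ℝ))
      (A0 := cntW d w n (g ρ j)) (A := cntW d w n x)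
      (A1 := cntW d w n (g ρ (j + 1))) (T0 := mainW d w (g ρ j)) (T := mainW d w x)
      (T1 := mainW d w (g ρ (j + 1))) he he1 (Nat.cast_nonneg _)
      (by exact_mod_cast Nat.monotone_primeCounting hgx)
      hpij (cntW_mono d w hw0 n hgx) (cntW_mono d w hw0 n hxg)
      (mainW_mono d w hw0 hgx) (mainW_mono d w hw0 hxg)
      (mainW_step d w hw0 hw1 (hgx.trans hxg)) ha0 ha1
    have hlast : 4 * e * (Nat.primeCounting x : ℝ) ≤
        ε * (Nat.primeCounting x : ℝ) := by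
      gcongr
    linarith
  have h1 : (#(badW d w ε C (c / 2) N) : ℝ) ≤ ∑ j ∈ range J, (#(Bd j) : ℝ) := by
    exact_mod_cast (card_le_card hincl).trans card_biUnion_le
  calc (#(badW d w ε C (c / 2) N) : ℝ) ≤ ∑ j ∈ range J, (#(Bd j) : ℝ) := h1
    _ ≤ ∑ _j ∈ range J, 2 * (N : ℝ) ^ θ₀ := Finset.sum_le_sum fun j _ => hBdc j
    _ = (2 * J) * (N : ℝ) ^ θ₀ := by rw [Finset.sum_const, nsmul_eq_mul, card_range]; ring
    _ ≤ (N : ℝ) ^ (θ - θ₀) * (N : ℝ) ^ θ₀ := by gcongr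
    _ = (N : ℝ) ^ θ := by
      rw [← Real.rpow_add hN0]; congr 1; ring



end Pool.Agent.H249_WA
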