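import Mathlib
import Pool.Agent.H249_WA.AllW

set_option autoImplicit false

/-! # Several integers at the same time -/

namespace Pool.Agent.H249_WA

open Finset Filter Topology
open Pool.Agent.H386R2.Artin (PP card_PP)
open Pool.Agent.H771R4.SE

open Classical in
/-- the total weight of the primes `p ≤ x` with all the conditions -/
noncomputable def cntT {k : ℕ} (d : Fin k → Dt) (w : ℕ → ℝ) (m : Fin k → ℕ) (x : ℕ) : ℝ :=
  ∑ p ∈ (PP x).filter (fun p : ℕ => ∀ i, (d i).Q p ((m i : ℕ) : ZMod p)), w p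

/-- the expected weight -/
noncomputable def mainT {k : ℕ} (d : Fin k → Dt) (w : ℕ → ℝ) (x : ℕ) : ℝ :=
  ∑ p ∈ PP x, w p * ∏ i, (d i).G p

open Classical in
/-- the exceptional vectors -/
noncomputable def badT {k : ℕ} (d : Fin k → Dt) (w : ℕ → ℝ) (ε C c : ℝ) (N : ℕ) :
    Finset (Fin k → ℕ) :=
  (Fintype.piFinset fun _ => Icc 1 N).filter (fun m : Fin k → ℕ => ∃ x : ℕ, (N : ℝ) ^ C ≤ x ∧
    (x : ℝ) ≤ Real.exp ((Real.log N) ^ (1 + c)) ∧
    ε * (Nat.primeCounting x : ℝ) < |cntT d w m x - mainT d w x|)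

lemma prodG_nonneg {k : ℕ} (d : Fin k → Dt) (p : ℕ) : 0 ≤ ∏ i, (d i).G p :=
  Finset.prod_nonneg fun i _ => (d i).G0 p

lemma prodG_le {k : ℕ} (d : Fin k → Dt) (p : ℕ) : ∏ i, (d i).G p ≤ 2 ^ k := by
  calc ∏ i, (d i).G p ≤ ∏ _i : Fin k, (2 : ℝ) :=
        Finset.prod_le_prod (fun i _ => (d i).G0 p) fun i _ => (d i).G1 p
    _ = 2 ^ k := by simp

theorem tuples (θ C : ℝ) (hθ : 1 / 2 < θ) (hθ1 : θ < 1) (hC : 1 < C)
    (hCθ : θ * (1 - θ) < C * (2 * θ - 1)) : ∃ c : ℝ, 0 < c ∧ ∀ (k : ℕ) (d : Fin k → Dt) (ε : ℝ),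
    0 < ε → ∃ N₀ : ℕ, ∀ N : ℕ, N₀ ≤ N → ∀ w : ℕ → ℝ, (∀ p, 0 ≤ w p) → (∀ p, w p ≤ 1) →
      (#(badT d w ε C c N) : ℝ) ≤ k * (N : ℝ) ^ ((k : ℝ) - 1 + θ) := by
  classical
  obtain ⟨c, hc, hA⟩ := allW θ C hθ hθ1 hC hCθ
  refine ⟨c, hc, fun k => ?_⟩
  induction k with
  | zero =>
    intro d ε hε
    refine ⟨0, fun N _ w hw0 hw1 => ?_⟩
    have h1 : badT d w ε C c N = ∅ := by
      unfold badT
      rw [filter_eq_empty_iff]
      rintro m _ ⟨x, _, _, hx⟩
      have h2 : cntT d w m x = mainT d w x := by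
        unfold cntT mainT
        rw [Finset.filter_true_of_mem fun p _ i => i.elim0]
        simp
      rw [h2, sub_self, abs_zero] at hx
      have : 0 ≤ ε * (Nat.primeCounting x : ℝ) := by positivity
      linarith
    rw [h1]
    simp
  | succ k ih =>
    intro d ε hε
    set d' : Fin k → Dt := fun i => d i.succ with hd'
    set K : ℝ := 2 ^ k with hK
    have hK0 : 0 < K := by positivity
    obtain ⟨N₁, hN₁⟩ := hA (d 0) (ε / (2 * K)) (by positivity)
    obtain ⟨N₂, hN₂⟩ := ih d' (ε / 2) (by positivity)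
    refine ⟨max (max N₁ N₂) 1, fun N hN w hw0 hw1 => ?_⟩
    have hNN1 : N₁ ≤ N := (le_max_left _ _).trans ((le_max_left _ _).trans hN)
    have hNN2 : N₂ ≤ N := (le_max_right _ _).trans ((le_max_left _ _).trans hN)
    have hN1 : 1 ≤ N := (le_max_right _ _).trans hN
    have hN0 : (0 : ℝ) < N := by exact_mod_cast hN1
    -- the weights
    set w1 : ℕ → ℕ → ℝ := fun n p => if (d 0).Q p ((n : ℕ) : ZMod p) then w p else 0 with hw1d
    set v : ℕ → ℝ := fun p => w p * (∏ i, (d' i).G p) / K with hv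
    have hw10 : ∀ n p, 0 ≤ w1 n p := fun n p => by
      simp only [hw1d]
      split_ifs
      · exact hw0 p
      · exact le_rfl
    have hw11 : ∀ n p, w1 n p ≤ 1 := fun n p => by
      simp only [hw1d]
      split_ifs
      · exact hw1 p
      · exact zero_le_one
    have hv0 : ∀ p, 0 ≤ v p := fun p => by
      simp only [hv]
      exact div_nonneg (mul_nonneg (hw0 p) (prodG_nonneg d' p)) hK0.le
    have hv1 : ∀ p, v p ≤ 1 := fun p => by
      simp only [hv]
      rw [div_le_one hK0]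
      calc w p * (∏ i, (d' i).G p) ≤ 1 * K :=
            mul_le_mul (hw1 p) (prodG_le d' p) (prodG_nonneg d' p) zero_le_one
        _ = K := one_mul _
    have e1 : ∀ (m : Fin (k + 1) → ℕ) (x : ℕ), cntT d w m x =
        cntT d' (w1 (m 0)) (fun i => m i.succ) x := by
      intro m x
      unfold cntT
      simp only [hw1d]
      rw [← Finset.sum_filter, Finset.filter_filter]
      apply Finset.sum_congr _ fun _ _ => rfl
      apply Finset.filter_congr
      intro p _
      rw [Fin.forall_fin_succ, and_comm]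
    have e2 : ∀ x : ℕ, mainT d w x = K * mainW (d 0) v x := by
      intro x
      unfold mainT mainW
      rw [Finset.mul_sum]
      refine Finset.sum_congr rfl fun p _ => ?_
      rw [Fin.prod_univ_succ]
      simp only [hv, hd']
      field_simp
    have e3 : ∀ (n x : ℕ), mainT d' (w1 n) x = K * cntW (d 0) v n x := by
      intro n x
      unfold mainT cntW
      rw [Finset.mul_sum, Finset.sum_filter]
      refine Finset.sum_congr rfl fun p _ => ?_
      simp only [hw1d, hv]
      split_ifs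
      · field_simp
      · rw [zero_mul]
    have hB0 := hN₁ N hNN1 v hv0 hv1
    have hB1 : ∀ n, (#(badT d' (w1 n) (ε / 2) C c N) : ℝ) ≤ k * (N : ℝ) ^ ((k : ℝ) - 1 + θ) :=
      fun n => hN₂ N hNN2 (w1 n) (hw10 n) (hw11 n)
    set PF : Finset (Fin k → ℕ) := Fintype.piFinset fun _ => Icc 1 N with hPF
    have hPFc : #PF = N ^ k := by
      rw [hPF, Fintype.card_piFinset]
      simp
    set T : Finset (ℕ × (Fin k → ℕ)) := (badW (d 0) v (ε / (2 * K)) C c N ×ˢ PF) ∪
      (Icc 1 N).biUnion (fun n => ({n} : Finset ℕ) ×ˢ badT d' (w1 n) (ε / 2) C c N) with hT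
    have hmap : ∀ m ∈ badT d w ε C c N, (m 0, fun i : Fin k => m i.succ) ∈ T := by
      intro m hm
      unfold badT at hm
      rw [mem_filter, Fintype.mem_piFinset] at hm
      obtain ⟨hm, x, hx1, hx2, hx3⟩ := hm
      rw [hT, mem_union]
      by_contra hcon
      rw [not_or] at hcon
      obtain ⟨hc1, hc2⟩ := hcon
      have hPFm : (fun i : Fin k => m i.succ) ∈ PF := by
        rw [hPF, Fintype.mem_piFinset]
        exact fun i => hm i.succ
      have g1 : |cntW (d 0) v (m 0) x - mainW (d 0) v x| ≤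
          ε / (2 * K) * (Nat.primeCounting x : ℝ) := by
        by_contra hcon
        push Not at hcon
        apply hc1
        rw [mem_product]
        refine ⟨?_, hPFm⟩
        unfold badW
        rw [mem_filter]
        exact ⟨hm 0, x, hx1, hx2, hcon⟩
      have g2 : |cntT d' (w1 (m 0)) (fun i : Fin k => m i.succ) x - mainT d' (w1 (m 0)) x| ≤
          ε / 2 * (Nat.primeCounting x : ℝ) := by
        by_contra hcon
        push Not at hcon
        apply hc2
        rw [mem_biUnion]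
        refine ⟨m 0, hm 0, ?_⟩
        rw [mem_product, mem_singleton]
        refine ⟨rfl, ?_⟩
        unfold badT
        rw [mem_filter]
        exact ⟨hPFm, x, hx1, hx2, hcon⟩
      have g3 : cntT d w m x - mainT d w x =
          (cntT d' (w1 (m 0)) (fun i : Fin k => m i.succ) x - mainT d' (w1 (m 0)) x) +
          K * (cntW (d 0) v (m 0) x - mainW (d 0) v x) := by
        rw [e1 m x, e2 x, e3 (m 0) x]
        ring
      rw [g3] at hx3
      have g4 := abs_add_le (cntT d' (w1 (m 0)) (fun i : Fin k => m i.succ) x -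
        mainT d' (w1 (m 0)) x) (K * (cntW (d 0) v (m 0) x - mainW (d 0) v x))
      have g5 : |K * (cntW (d 0) v (m 0) x - mainW (d 0) v x)| ≤
          ε / 2 * (Nat.primeCounting x : ℝ) := by
        rw [abs_mul, abs_of_pos hK0]
        calc K * |cntW (d 0) v (m 0) x - mainW (d 0) v x| ≤
            K * (ε / (2 * K) * (Nat.primeCounting x : ℝ)) := by gcongr
          _ = ε / 2 * (Nat.primeCounting x : ℝ) := by field_simp
      linarith
    have hinj : Set.InjOn (fun m : Fin (k + 1) → ℕ => (m 0, fun i : Fin k => m i.succ))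
        (badT d w ε C c N : Set (Fin (k + 1) → ℕ)) := by
      intro m _ m' _ h
      simp only [Prod.mk.injEq] at h
      funext i
      refine Fin.cases h.1 (fun i => ?_) i
      exact congrFun h.2 i
    have hcard := card_le_card_of_injOn _ hmap hinj
    have hTc : (#T : ℝ) ≤ (N : ℝ) ^ θ * (N : ℝ) ^ k + N * (k * (N : ℝ) ^ ((k : ℝ) - 1 + θ)) := by
      have t1 : #T ≤ #(badW (d 0) v (ε / (2 * K)) C c N ×ˢ PF) +
          ∑ n ∈ Icc 1 N, #(({n} : Finset ℕ) ×ˢ badT d' (w1 n) (ε / 2) C c N) :=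
        (card_union_le _ _).trans (add_le_add le_rfl card_biUnion_le)
      have t2 : (#T : ℝ) ≤ (#(badW (d 0) v (ε / (2 * K)) C c N) : ℝ) * (N : ℝ) ^ k +
          ∑ n ∈ Icc 1 N, (#(badT d' (w1 n) (ε / 2) C c N) : ℝ) := by
        have : (#T : ℝ) ≤ ((#(badW (d 0) v (ε / (2 * K)) C c N ×ˢ PF) +
          ∑ n ∈ Icc 1 N, #(({n} : Finset ℕ) ×ˢ badT d' (w1 n) (ε / 2) C c N) : ℕ) : ℝ) := by
          exact_mod_cast t1
        refine this.trans (le_of_eq ?_)
        simp only [card_product, hPFc, card_singleton, one_mul]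
        push_cast
        ring
      refine t2.trans (add_le_add ?_ ?_)
      · gcongr
      · calc ∑ n ∈ Icc 1 N, (#(badT d' (w1 n) (ε / 2) C c N) : ℝ)
            ≤ ∑ _n ∈ Icc 1 N, (k * (N : ℝ) ^ ((k : ℝ) - 1 + θ)) :=
              Finset.sum_le_sum fun n _ => hB1 n
          _ = N * (k * (N : ℝ) ^ ((k : ℝ) - 1 + θ)) := by
              rw [Finset.sum_const, nsmul_eq_mul, Nat.card_Icc, Nat.add_sub_cancel]
    have hr1 : (N : ℝ) ^ θ * (N : ℝ) ^ k = (N : ℝ) ^ ((k : ℝ) + θ) := by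
      rw [← Real.rpow_natCast, ← Real.rpow_add hN0]
      congr 1
      ring
    have hr2 : (N : ℝ) * (k * (N : ℝ) ^ ((k : ℝ) - 1 + θ)) = k * (N : ℝ) ^ ((k : ℝ) + θ) := by
      have : (N : ℝ) ^ ((k : ℝ) + θ) = (N : ℝ) ^ (1 : ℝ) * (N : ℝ) ^ ((k : ℝ) - 1 + θ) := by
        rw [← Real.rpow_add hN0]
        congr 1
        ring
      rw [this, Real.rpow_one]
      ring
    rw [hr1, hr2] at hTc
    have hcard' : (#(badT d w ε C c N) : ℝ) ≤ #T := by exact_mod_cast hcard
    have hexp : (((k + 1 : ℕ) : ℝ) - 1 + θ) = (k : ℝ) + θ := by push_cast; ring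
    rw [hexp]
    push_cast
    linarith

end Pool.Agent.H249_WA
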