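import Mathlib
import Pool.Agent.H249_WA.Tuples

set_option autoImplicit false

/-! # The counting problems: `D n` and `D n ^ (2 ^ j)` -/

namespace Pool.Agent.H249_WA

open Finset Filter Topology
open Pool.Agent.H386R2.Artin (PP Good hL gL LC_pos gL_nonneg gL_le_one)
open Pool.Agent.H771R4.SE
open Pool.Agent.H730R2.AA (rho)
open Pool.Agent.H730R2.AB (gL_rho)

/-- Artin's conjecture for `D n` -/
noncomputable def dL (D : ℤ) (hD : D ≠ 0) : Dt where
  Q := fun p a => orderOf ((D : ZMod p) * a ^ (2 ^ 0)) = p - 1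
  G := fun p => if (p : ℤ) ∣ D then 0 else rho p * 1
  p0 := D.natAbs + 3
  G0 := fun p => by
    split_ifs
    · exact le_rfl
    · rw [mul_one]; exact rho_nn p
  G1 := fun p => by
    split_ifs
    · norm_num
    · rw [mul_one]; exact (rho_le p).trans (by norm_num)
  loc := by
    classical
    intro p hp hp0 E M L hL2 hE hM hG
    have hpD : ¬ (p : ℤ) ∣ D := not_dvd_of_lt hD (by omega)
    have h := (dLin D hD).loc p hp (by
      change D.natAbs + 1 ≤ p
      omega) E M L hL2 hE hM hG
    simp only [dLin] at h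
    simp only [if_neg hpD, mul_one, pow_zero, pow_one]
    exact h

/-- Artin's conjecture for `D n ^ (2 ^ (j + 1))` -/
noncomputable def dS (D : ℤ) (hD : D ≠ 0) (j : ℕ) : Dt where
  Q := fun p a => orderOf ((D : ZMod p) * a ^ (2 ^ (j + 1))) = p - 1
  G := fun p => if (p : ℤ) ∣ D then 0 else rho p * (1 - (jacobiSym D p : ℝ))
  p0 := D.natAbs + 3
  G0 := fun p => by
    split_ifs
    · exact le_rfl
    · exact mul_nonneg (rho_nn p) (Pool.Agent.H730R2.AA.ox_jac D p).1
  G1 := fun p => by
    split_ifs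
    · norm_num
    · have h1 := (Pool.Agent.H730R2.AA.ox_jac D p).1
      have h2 := (Pool.Agent.H730R2.AA.ox_jac D p).2
      have h3 := rho_le p
      have h4 := rho_nn p
      calc rho p * (1 - (jacobiSym D p : ℝ)) ≤ 1 * 2 := by gcongr
        _ = 2 := by norm_num
  loc := by
    classical
    intro p hp hp0 E M L hL2 hE hM hG
    have : Fact p.Prime := ⟨hp⟩
    have hpD : ¬ (p : ℤ) ∣ D := not_dvd_of_lt hD (by omega)
    have hp2 : p ≠ 2 := by omega
    have hD' : (D : ZMod p) ≠ 0 := by rwa [Ne, ZMod.intCast_zmod_eq_zero_iff_dvd]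
    have hj : jacobiSym D p = legendreSym p D := (jacobiSym.legendreSym.to_jacobiSym p D).symm
    simp only [if_neg hpD, hj]
    have hpd : (p - 1) / 2 = p / 2 := by
      have := hp.eq_two_or_odd
      omega
    have hc : 2 * ((p - 1) / 2) = p - 1 := by
      have := hp.eq_two_or_odd
      omega
    rcases legendreSym.eq_one_or_neg_one p hD' with h | h
    · -- quadratic residue
      have h1 : (D : ZMod p) ^ (p / 2) = 1 := by
        have := legendreSym.eq_pow p D
        rw [h] at this
        rw [← this]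
        push_cast; rfl
      have hempty : (E.filter (fun q : ℕ => orderOf ((D : ZMod p) * ((q : ℕ) : ZMod p) ^ (2 ^ (j + 1))) =
          p - 1)) = ∅ := by
        rw [filter_eq_empty_iff]
        intro q hq hcon
        have h2 : ((D : ZMod p) * ((q : ℕ) : ZMod p) ^ (2 ^ (j + 1))) ^ ((p - 1) / 2) = 1 := by
          rw [mul_pow, pow_succ, pow_mul, ← pow_mul _ 2, hc,
            ZMod.pow_card_sub_one_eq_one (pow_ne_zero _ (hE q hq)), mul_one, hpd]
          exact h1
        have h3 := orderOf_dvd_of_pow_eq_one h2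
        rw [hcon] at h3
        have h4 : 0 < (p - 1) / 2 := by omega
        have h5 := Nat.le_of_dvd h4 h3
        omega
      have e1 : (1 : ℝ) - ((legendreSym p D : ℤ) : ℝ) = 0 := by rw [h]; push_cast; norm_num
      rw [e1, mul_zero, mul_zero, sub_zero]
      have e2 : ((#(E.filter (fun q : ℕ => orderOf ((D : ZMod p) * ((q : ℕ) : ZMod p) ^ (2 ^ (j + 1))) =
          p - 1)) : ℕ) : ℝ) = 0 := by rw [hempty]; simp
      refine le_trans (le_of_eq ?_) (err_nn p E M L hM)
      rw [abs_eq_zero]
      refine Eq.trans ?_ e2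
      congr!
    · have h1 : (D : ZMod p) ^ (p / 2) = -1 := by
        have := legendreSym.eq_pow p D
        rw [h] at this
        rw [← this]
        push_cast; rfl
      have e1 : rho p * ((1 : ℝ) - ((legendreSym p D : ℤ) : ℝ)) = 2 * rho p := by
        rw [h]; push_cast; ring
      rw [e1]
      refine loc_odd hp hp2 E M L hL2 hE hM hG
        (fun q : ℕ => (D : ZMod p) * (q : ZMod p) ^ (2 ^ (j + 1))) (fun q hq =>
          mul_ne_zero hD' (pow_ne_zero _ (hE q hq))) (lin_pow2 D hpD (j + 1)) _ (fun q => ?_)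
      refine (@Finset.mem_filter _ _ (fun _ => Classical.propDecidable _) _ _).trans ?_
      apply and_congr_right
      intro hq
      apply prim_iff_oddP hp2
      rw [mul_pow, pow_succ, pow_mul, ← pow_mul _ 2, ← hpd, hc,
        ZMod.pow_card_sub_one_eq_one (pow_ne_zero _ (hE q hq)), mul_one, hpd]
      exact h1

/-- all these problems -/
noncomputable def dE (D : ℤ) (hD : D ≠ 0) : ℕ → Dt
  | 0 => dL D hD
  | j + 1 => dS D hD j

lemma dE_Q (D : ℤ) (hD : D ≠ 0) (e : ℕ) (p : ℕ) (a : ZMod p) :
    (dE D hD e).Q p a ↔ orderOf ((D : ZMod p) * a ^ (2 ^ e)) = p - 1 := by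
  cases e <;> exact Iff.rfl

lemma dE_G (D : ℤ) (hD : D ≠ 0) (e : ℕ) (p : ℕ) :
    (dE D hD e).G p = if (p : ℤ) ∣ D then 0 else
      rho p * (if e = 0 then 1 else 1 - (jacobiSym D p : ℝ)) := by
  cases e <;> rfl

end Pool.Agent.H249_WA
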